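import Pool.Agent.MP_6a4325_al.H84.Spec3

/-! Irreducible solutions of function equations, and irreducible extensions. -/

set_option autoImplicit false

namespace Pool.Agent.MP_6a4325_al.H95

open Pool.Agent.MP_6a4325_al.H62 Pool.Agent.MP_6a4325_al.H84

/-- An irreducible quotient of a cyclic subrepresentation. -/
theorem cyc {k G X : Type} [Field k] [Group G] [AddCommGroup X] [Module k X]
    (τ : Representation k G X) {x : X} (hx : x ≠ 0) :
    ∃ (U : Type) (_ : AddCommGroup U) (_ : Module k U) (σ : Representation k G U)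
      (π : gen τ {x} →ₗ[k] U), Irr σ ∧ π ⟨x, mem_gen τ rfl⟩ ≠ 0 ∧
      ∀ g (y : gen τ {x}), π ⟨τ g y, inv_gen τ _ g y y.2⟩ = σ g (π y) := by
  let ρ := τ.subrepresentation (gen τ {x}) fun g => inv_gen τ _ g
  let v : gen τ {x} := ⟨x, mem_gen τ rfl⟩
  have hg : gen ρ {v} = ⊤ := by
    refine top_le_iff.1 fun ⟨u, hu⟩ _ => ?_
    induction hu using Submodule.span_induction with
    | mem y hy =>
      obtain ⟨g, t, rfl, rfl⟩ := hy
      exact Submodule.subset_span ⟨g, _, rfl, rfl⟩
    | zero => exact zero_mem _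
    | add a b _ _ ha hb => exact add_mem (ha trivial) (hb trivial)
    | smul c a _ ha => exact Submodule.smul_mem _ c (ha trivial)
  obtain ⟨U, hU, -, h3⟩ := exists_irr_quot ρ {v} (by rw [Finset.coe_singleton, hg]) ⊥
    (fun g u hu => by rw [(Submodule.mem_bot k).1 hu, map_zero]; exact zero_mem _)
    fun e => hx (congrArg Subtype.val
      ((Submodule.mem_bot k).1 (show v ∈ ⊥ from e ▸ Submodule.mem_top)))
  refine ⟨_, _, _, ρ.quotient U hU, U.mkQ, h3, fun h0 => ?_, fun _ _ => rfl⟩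
  have h4 : U = ⊤ := top_le_iff.1 (hg ▸ gen_le hU fun t ht => by
    rw [Set.mem_singleton_iff.1 ht]
    exact (Submodule.Quotient.mk_eq_zero U).1 h0)
  exact not_subsingleton_iff_nontrivial.2 h3.1 (Submodule.Quotient.subsingleton_iff.2 h4)

/-- Right translations on functions. -/
def tr (k G E : Type) [Field k] [Group G] [AddCommGroup E] [Module k E] :
    Representation k G (G → E) where
  toFun g := LinearMap.funLeft k E fun x => x * g
  map_one' := LinearMap.ext fun f => funext fun x => congrArg f (mul_one x)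
  map_mul' g h := LinearMap.ext fun f => funext fun x => congrArg f (mul_assoc x g h).symm

theorem sfun : SFun := by
  intro k G E _ _ _ _ ψ ⟨g₀, hg₀⟩
  obtain ⟨U, _, _, σ, π, h1, h2, h3⟩ := cyc (tr k G E) (x := ψ) fun e => hg₀ (congrFun e g₀)
  refine ⟨U, _, _, σ, _, h1, h2, fun x hx => ?_⟩
  have h4 : σ.asAlgebraHom x (π ⟨ψ, mem_gen _ rfl⟩) = π (x.coeff.sum fun a c =>
      c • ⟨tr k G E a ψ, inv_gen _ _ a ψ (mem_gen _ rfl)⟩) := by
    rw [Representation.asAlgebraHom_def, MonoidAlgebra.lift_apply, map_finsuppSum,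
      LinearMap.finsupp_sum_apply]
    exact Finsupp.sum_congr fun a _ => by rw [map_smul, h3 a ⟨ψ, mem_gen _ rfl⟩]; rfl
  rw [h4, ← map_zero π]
  refine congrArg π (Subtype.ext (funext fun g => ?_))
  rw [Finsupp.sum, Submodule.coe_sum, Finset.sum_apply]
  exact hx g

theorem sup3 : SUp := by
  intro k A B M _ _ _ _ _ f hf ρ hρ
  classical
  have := hρ.1
  obtain ⟨v, hv⟩ := exists_ne (0 : M)
  let φ₀ : M →ₗ[k] (B → M) :=
    LinearMap.pi fun g => if h : ∃ a, f a = g then ρ h.choose else 0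
  have e1 : ∀ a m, φ₀ m (f a) = ρ a m := fun a m => by
    have h : ∃ a', f a' = f a := ⟨a, rfl⟩
    simp only [φ₀, LinearMap.pi_apply, dif_pos h, hf h.choose_spec]
  have e2 : ∀ g m, (¬ ∃ a, f a = g) → φ₀ m g = 0 := fun g m h => by
    simp only [φ₀, LinearMap.pi_apply, dif_neg h, LinearMap.zero_apply]
  have e3 : ∀ a m, φ₀ (ρ a m) = tr k B M (f a) (φ₀ m) := fun a m => funext fun g => by
    show _ = φ₀ m (g * f a)
    by_cases h : ∃ a', f a' = g
    · obtain ⟨a', rfl⟩ := h
      rw [← map_mul, e1, e1, map_mul]; rfl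
    · rw [e2 g _ h, e2]
      rintro ⟨a', h'⟩
      exact h ⟨a' * a⁻¹, by rw [map_mul, map_inv, h', mul_inv_cancel_right]⟩
  obtain ⟨U, _, _, σ, π, h1, h2, h3⟩ := cyc (tr k B M) (x := φ₀ v) fun e => hv (by
    simpa [e1] using (e1 1 v).symm.trans (congrFun e _))
  have hm : ∀ m, φ₀ m ∈ gen (tr k B M) {φ₀ v} := fun m => by
    have : gen ρ {v} ≤ (gen (tr k B M) {φ₀ v}).comap φ₀ :=
      gen_le (fun a u hu => by
        rw [Submodule.mem_comap, e3]; exact inv_gen _ _ _ _ hu) fun t ht => by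
          rw [Set.mem_singleton_iff.1 ht]; exact mem_gen _ rfl
    exact this (hρ.gen_top hv ▸ Submodule.mem_top)
  let φ := π.comp (φ₀.codRestrict _ hm)
  have hφ : Eqv f ρ σ φ := fun a u =>
    (congrArg π (Subtype.ext (e3 a u))).trans (h3 (f a) ⟨φ₀ u, hm u⟩)
  refine ⟨U, _, _, σ, φ, h1, LinearMap.ker_eq_bot.1 ((hρ.2 _ fun a u hu => ?_).resolve_right
    fun e => h2 (show v ∈ LinearMap.ker φ from e ▸ Submodule.mem_top)), hφ, fun hi hM => ?_⟩
  · rw [LinearMap.mem_ker, hφ, LinearMap.mem_ker.1 hu, map_zero]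
  · let N : Submodule k U := ⨆ q : B ⧸ f.range, LinearMap.range ((σ q.out).comp φ)
    have h4 : ∀ g m, σ g (φ m) ∈ N := fun g m => by
      obtain ⟨⟨_, a, rfl⟩, ha⟩ := QuotientGroup.mk_out_eq_mul f.range g
      refine Submodule.mem_iSup_of_mem (g : B ⧸ f.range) ⟨ρ a⁻¹ m, ?_⟩
      rw [LinearMap.comp_apply, hφ, ha, ← Module.End.mul_apply, ← map_mul, map_inv,
        mul_inv_cancel_right]
    have h5 : N = ⊤ := (h1.2 N fun g u hu => by
      have : N ≤ N.comap (σ g) := iSup_le fun q => by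
        rintro _ ⟨m, rfl⟩
        rw [Submodule.mem_comap, LinearMap.comp_apply, ← Module.End.mul_apply, ← map_mul]
        exact h4 _ m
      exact this hu).resolve_left fun e => h2 (by
        have := h4 1 v
        rwa [e, map_one] at this)
    have : FiniteDimensional k N := Submodule.finiteDimensional_iSup _
    rw [h5] at this
    exact Module.Finite.equiv Submodule.topEquiv

end Pool.Agent.MP_6a4325_al.H95
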